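import Pool.Agent.H18.QA.Fin

/-!
# MP_57adf2_an, Q2: the averages `R_N(A)` have a strictly positive limit

Positive answer to Q2. Sketch. Let `K` be the closed span of the `h ∈ L²` for which there are `Q`
and a set `E` of primes with `∑_{p ∈ E} 1/p < ∞` such that `T_k h = h` for all `k ≡ 1 mod Q` free of
primes of `E`, and let `P` be the projection onto `K`. Then `P` preserves positivity, and `1_A` may
be replaced by `F = P 1_A ≥ 0` in the factor `T_{m+n} 1_A` (a spectral argument with a Halász type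
theorem and a Turán-Kubilius argument, from the earlier library). On a subset `A'` of `A` of measure
`≥ μ(A)/2` one has `F ≥ μ(A)/2`. Let `Q` be suitable, `m ≡ 1 mod Q` and `n = Q^j n'` with `n'` free
of the primes of the finitely many small colours; then `T_{m+n} F` is close to `F` for most pairs,
the averages over `n'` of `T_{n'} (1_{A'} T_m 1_{A'})` are for most `m` close to a projection `w_m`
of `1_{A'} T_m 1_{A'}` (uniformly), and `∑_{j < J} (J - j) ⟨w_m, T_{Q^j} w_m⟩` is positive by van der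
Corput's trick, since `∫ w_m = μ(A' ∩ T_m⁻¹ A')` is bounded below on average over `m ≡ 1 mod Q`.
-/

set_option autoImplicit false
set_option linter.unusedSectionVars false

open Finset Filter Topology MeasureTheory
open scoped ENNReal InnerProductSpace

namespace Pool.Agent.Results.MP_57adf2_an.RecurrenceLimitPositive

open Pool.Agent.K7.H83.MA Pool.Agent.H18.QA

/-- A multiplicative measure preserving action (identities between maps are understood almost
everywhere): `T n`, `n ≥ 1`, are measure preserving maps, invertible modulo null sets, with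
`T 1 = id` and `T (m n) = T m ∘ T n`. -/
structure MultAction {X : Type*} [MeasurableSpace X] (μ : Measure X) (T : ℕ → X → X) : Prop where
  mp : ∀ n, 0 < n → MeasurePreserving (T n) μ μ
  inv : ∀ n, 0 < n → ∃ S : X → X, MeasurePreserving S μ μ ∧ (∀ᵐ x ∂μ, S (T n x) = x) ∧
    (∀ᵐ x ∂μ, T n (S x) = x)
  one : ∀ᵐ x ∂μ, T 1 x = x
  mul : ∀ m n, 0 < m → 0 < n → ∀ᵐ x ∂μ, T (m * n) x = T m (T n x)

/-- The action is finitely generated: up to equality almost everywhere, only finitely many maps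
occur among the `T p`, `p` prime. -/
def FinGen {X : Type*} [MeasurableSpace X] (μ : Measure X) (T : ℕ → X → X) : Prop :=
  ∃ V : Set (X → X), V.Finite ∧ ∀ p : ℕ, p.Prime → ∃ S ∈ V, T p =ᵐ[μ] S

/-- The average `R_N(A) = N⁻² ∑_{m, n ≤ N} μ(A ∩ T_{mn}⁻¹A ∩ T_{m+n}⁻¹A ∩ T_m⁻¹A ∩ T_n⁻¹A)`. -/
noncomputable def RAv {X : Type*} [MeasurableSpace X] (μ : Measure X) (T : ℕ → X → X) (A : Set X)
    (N : ℕ) : ℝ :=
  1 / (N : ℝ) ^ 2 * ∑ m ∈ Icc 1 N, ∑ n ∈ Icc 1 N,
    (μ (A ∩ T (m * n) ⁻¹' A ∩ T (m + n) ⁻¹' A ∩ T m ⁻¹' A ∩ T n ⁻¹' A)).toReal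

theorem exists_col {X : Type*} [MeasurableSpace X] {μ : Measure X} {T : ℕ → X → X}
    (hT : MultAction μ T) (hfg : FinGen μ T) : ∃ (r : ℕ) (c : ℕ → Fin r), Sys c μ T := by
  classical
  obtain ⟨V, hV, hVT⟩ := hfg
  have h1 : ∀ p : ℕ, ∃ S : hV.toFinset, p.Prime → T p =ᵐ[μ] (S : X → X) := by
    intro p
    by_cases hp : p.Prime
    · obtain ⟨S, hS, hTS⟩ := hVT p hp
      exact ⟨⟨S, hV.mem_toFinset.2 hS⟩, fun _ => hTS⟩
    · obtain ⟨S, hS, hTS⟩ := hVT 2 Nat.prime_two
      exact ⟨⟨S, hV.mem_toFinset.2 hS⟩, fun h => absurd h hp⟩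
  choose S hS using h1
  refine ⟨hV.toFinset.card, fun p => hV.toFinset.equivFin (S p), hT.mp, hT.inv, hT.one, hT.mul,
    fun p q hp hq hpq => ?_⟩
  have h2 : S p = S q := hV.toFinset.equivFin.injective hpq
  have h3 := hS p hp
  rw [h2] at h3
  exact h3.trans (hS q hq).symm

theorem term_real {X : Type*} [MeasurableSpace X] [StandardBorelSpace X] {μ : Measure X}
    [IsProbabilityMeasure μ] {T : ℕ → X → X} {r : ℕ} {c : ℕ → Fin r} (h : Sys c μ T) {A : Set X}
    (hA : MeasurableSet A) {m n : ℕ} (hm : 0 < m) (hn : 0 < n) :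
    (⟪ci μ (BBs T A m n), koop μ T (m + n) (ci μ A)⟫_ℂ).re =
      (μ (A ∩ T (m * n) ⁻¹' A ∩ T (m + n) ⁻¹' A ∩ T m ⁻¹' A ∩ T n ⁻¹' A)).toReal := by
  have hk : 0 < m + n := by omega
  have hB := BBs_meas h hA hm hn
  have hC : MeasurableSet (T (m + n) ⁻¹' A) := (h.mp _ hk).measurable hA
  have e1 : koop μ T (m + n) (ci μ A) = ci μ (T (m + n) ⁻¹' A) := by
    unfold ci
    rw [koop_bl (h.mp _ hk) (ind_BM hA)]
    rfl
  rw [e1]
  unfold ci
  rw [inner_bl (ind_BM hB) (ind_BM hC)]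
  have e2 : A ∩ T (m * n) ⁻¹' A ∩ T (m + n) ⁻¹' A ∩ T m ⁻¹' A ∩ T n ⁻¹' A =
      BBs T A m n ∩ T (m + n) ⁻¹' A := by
    ext x
    simp only [BBs, Set.mem_inter_iff, Set.mem_preimage]
    tauto
  have e3 : ∫ x, (starRingEnd ℂ) ((BBs T A m n).indicator (fun _ => (1 : ℂ)) x) *
      (T (m + n) ⁻¹' A).indicator (fun _ => (1 : ℂ)) x ∂μ =
      ((μ.real (BBs T A m n ∩ T (m + n) ⁻¹' A) : ℝ) : ℂ) := by
    have e4 : ∫ x, (BBs T A m n ∩ T (m + n) ⁻¹' A).indicator (fun _ => (1 : ℂ)) x ∂μ =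
        ((μ.real (BBs T A m n ∩ T (m + n) ⁻¹' A) : ℝ) : ℂ) := by
      rw [integral_indicator (hB.inter hC), integral_const]
      simp
    rw [← e4]
    congr 1
    funext x
    by_cases h1 : x ∈ BBs T A m n
    · by_cases h2 : x ∈ T (m + n) ⁻¹' A
      · rw [Set.indicator_of_mem h1, Set.indicator_of_mem h2,
          Set.indicator_of_mem (show x ∈ BBs T A m n ∩ T (m + n) ⁻¹' A from ⟨h1, h2⟩)]
        simp
      · rw [Set.indicator_of_notMem h2,
          Set.indicator_of_notMem (show x ∉ BBs T A m n ∩ T (m + n) ⁻¹' A from fun h3 => h2 h3.2),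
          mul_zero]
    · rw [Set.indicator_of_notMem h1,
        Set.indicator_of_notMem (show x ∉ BBs T A m n ∩ T (m + n) ⁻¹' A from fun h3 => h1 h3.1)]
      simp
  rw [e3, Complex.ofReal_re, e2]
  rfl

/-- **Q2, answered in the affirmative.** Let `(X, μ)` be a standard Borel probability space and
`(T n)` a finitely generated multiplicative measure preserving action on it. Then for every
measurable (with respect to the completion of `μ`) set `A` with `μ(A) > 0` the limit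
`lim_N N⁻² ∑_{m, n ≤ N} μ(A ∩ T_{mn}⁻¹A ∩ T_{m+n}⁻¹A ∩ T_m⁻¹A ∩ T_n⁻¹A)` exists and is strictly
positive. -/
theorem result {X : Type*} [MeasurableSpace X] [StandardBorelSpace X] (μ : Measure X)
    [IsProbabilityMeasure μ] (T : ℕ → X → X) (hT : MultAction μ T) (hfg : FinGen μ T)
    (A : Set X) (hA : NullMeasurableSet A μ) (hpos : 0 < μ A) :
    ∃ ℓ : ℝ, 0 < ℓ ∧ Tendsto (fun N : ℕ => RAv μ T A N) atTop (𝓝 ℓ) := by
  obtain ⟨r, c, hs⟩ := exists_col hT hfg
  set B : Set X := toMeasurable μ A with hBdef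
  have hB : MeasurableSet B := measurableSet_toMeasurable μ A
  have hAB : A =ᵐ[μ] B := hA.toMeasurable_ae_eq.symm
  have hBpos : 0 < μ.real B := by
    rw [measureReal_def, hBdef, measure_toMeasurable]
    exact ENNReal.toReal_pos hpos.ne' (measure_ne_top μ A)
  obtain ⟨ℓ, hℓ, hlim⟩ := lim_pos hs hB hBpos
  refine ⟨ℓ, hℓ, hlim.congr fun N => ?_⟩
  unfold RR RAv
  have hI : (Icc 1 N : Finset ℕ) = Ioc 0 N := by
    ext k; rw [mem_Icc, mem_Ioc]; omega
  have hN : 1 / (N : ℝ) ^ 2 = (N : ℝ)⁻¹ * (N : ℝ)⁻¹ := by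
    rw [one_div, sq, mul_inv]
  rw [hI, hN]
  congr 1
  refine Finset.sum_congr rfl fun m hm => Finset.sum_congr rfl fun n hn => ?_
  rw [mem_Ioc] at hm hn
  rw [term_real hs hB hm.1 hn.1]
  congr 1
  have hpre : ∀ k, 0 < k → (T k ⁻¹' A : Set X) =ᵐ[μ] (T k ⁻¹' B : Set X) := fun k hk =>
    (hT.mp k hk).quasiMeasurePreserving.preimage_ae_eq hAB
  refine (measure_congr ?_).symm
  exact (((hAB.inter (hpre _ (Nat.mul_pos hm.1 hn.1))).inter (hpre _ (by omega))).inter
    (hpre m hm.1)).inter (hpre n hn.1)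

end Pool.Agent.Results.MP_57adf2_an.RecurrenceLimitPositive
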